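import Pool.Agent.Helper1.TE.Goals

/-!
# PROJECT TE (MP_8b4d68_lc), packet GA
-/

namespace Pool.Agent.Helper53.TE

open Pool.Agent.Helper1.TE
open Pool.Agent.Helper65.LinSpace (dig tab tab_congr dig_tab tab_dig dig_lt tab_lt)
open Finset

section

variable {P : ℕ}

theorem modsub {d v : ℕ} (hd : d < P) (hv : v ≤ P) : ((d + v) % P + (P - v)) % P = d := by
  rw [Nat.mod_add_mod, show d + v + (P - v) = d + P by omega, Nat.add_mod_right,
    Nat.mod_eq_of_lt hd]

variable (c : ℕ → ℕ → ℕ) (m L R : ℕ)

theorem dig_addm (hP : 0 < L + R) (X y i : ℕ) (hi : i < m + 2) :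
    dig (L + R) (addm m L R X y) i =
      if i = m then (dig (L + R) X m + y) % (L + R) else dig (L + R) X i := by
  unfold addm
  refine dig_tab (d := fun i => if i = m then (dig (L + R) X m + y) % (L + R)
    else dig (L + R) X i) ?_ hi
  intro j _
  by_cases h : j = m
  · simp only [h, if_true]
    exact Nat.mod_lt _ hP
  · simp only [if_neg h]
    exact dig_lt hP _ _

theorem dig_shX (hP : 0 < L + R) (p X i : ℕ) (hi : i < m + 2) :
    dig (L + R) (shX c m L R p X) i = (dig (L + R) X i + vN c m p i) % (L + R) := by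
  unfold shX
  exact dig_tab (d := fun i => (dig (L + R) X i + vN c m p i) % (L + R))
    (fun j _ => Nat.mod_lt _ hP) hi

theorem ushX_shX (hP : 0 < L + R) (p X : ℕ) (hX : X < (L + R) ^ (m + 2))
    (hv : ∀ i < m + 2, vN c m p i ≤ L + R) : ushX c m L R p (shX c m L R p X) = X := by
  conv_rhs => rw [← tab_dig X (m + 2) hX]
  unfold ushX
  refine tab_congr fun i hi => ?_
  rw [dig_shX c m L R hP p X i hi]
  exact modsub (dig_lt hP X i) (hv i hi)

/-- the main part of the functional -/
def wA (p X : ℕ) : ℕ :=
  (∑ i ∈ range m, 2 * c p i * dig (L + R) X i) + (L - nrm c m p) * dig (L + R) X (m + 1)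

theorem wN_eq (p X : ℕ) :
    wN c m L R p X = (wA c m L R p X + (L + R - 1) * dig (L + R) X m) % (L + R) := by
  unfold wN wA
  congr 1
  ring

theorem wA_addm (hP : 0 < L + R) (p X y : ℕ) :
    wA c m L R p (addm m L R X y) = wA c m L R p X := by
  unfold wA
  rw [dig_addm m L R hP X y (m + 1) (by omega), if_neg (by omega)]
  congr 1
  refine sum_congr rfl fun i hi => ?_
  rw [mem_range] at hi
  rw [dig_addm m L R hP X y i (by omega), if_neg (by omega)]

theorem wN_addm (hP : 0 < L + R) (p X y : ℕ) (hy : y ≤ wN c m L R p X) :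
    wN c m L R p (addm m L R X y) = wN c m L R p X - y := by
  have h1 : wN c m L R p (addm m L R X y) + y ≡ wN c m L R p X [MOD (L + R)] := by
    rw [wN_eq, wN_eq, wA_addm c m L R hP p X y, dig_addm m L R hP X y m (by omega), if_pos rfl]
    generalize wA c m L R p X = A
    generalize dig (L + R) X m = d
    obtain ⟨Q, hQ⟩ : ∃ Q, L + R = Q + 1 := ⟨L + R - 1, by omega⟩
    rw [hQ, Nat.add_sub_cancel]
    have h2 : (A + Q * ((d + y) % (Q + 1))) % (Q + 1) + y ≡
        A + Q * (d + y) + y [MOD (Q + 1)] := by
      refine Nat.ModEq.add_right y ?_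
      refine (Nat.mod_modEq _ _).trans ?_
      exact Nat.ModEq.add_left A (Nat.ModEq.mul_left Q (Nat.mod_modEq _ _))
    refine h2.trans ?_
    refine Nat.ModEq.trans ?_ (Nat.mod_modEq _ _).symm
    have h3 : A + Q * (d + y) + y = A + Q * d + (Q + 1) * y := by ring
    rw [h3]
    have h4 : (Q + 1) * y ≡ 0 [MOD (Q + 1)] := (Nat.modEq_zero_iff_dvd).2 (Dvd.intro _ rfl)
    exact Nat.ModEq.add_left (A + Q * d) h4
  have h2 : wN c m L R p (addm m L R X y) < L + R := by
    unfold wN
    exact Nat.mod_lt _ hP
  have h3 : wN c m L R p X < L + R := by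
    unfold wN
    exact Nat.mod_lt _ hP
  have h4 : wN c m L R p (addm m L R X y) ≡ wN c m L R p X - y [MOD (L + R)] := by
    apply Nat.ModEq.add_right_cancel' y
    rw [Nat.sub_add_cancel hy]
    exact h1
  exact Nat.ModEq.eq_of_lt_of_lt h4 h2 (by omega)

theorem addm_addm (hP : 0 < L + R) (X y : ℕ) (hX : X < (L + R) ^ (m + 2)) (hy : y ≤ L + R) :
    addm m L R (addm m L R X y) (L + R - y) = X := by
  conv_rhs => rw [← tab_dig X (m + 2) hX]
  conv_lhs => unfold addm
  refine tab_congr fun i hi => ?_
  have h1 := dig_addm m L R hP X y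
  by_cases h : i = m
  · subst h
    rw [if_pos rfl]
    have h2 := h1 i hi
    rw [if_pos rfl] at h2
    unfold addm at h2
    rw [h2]
    exact modsub (dig_lt hP X i) hy
  · rw [if_neg h]
    have h2 := h1 i hi
    rw [if_neg h] at h2
    unfold addm at h2
    exact h2

end

theorem gGA : GoalGA := by
  intro c m L R K hc p hp z hz
  obtain ⟨X, S⟩ := z
  have hX : X < (L + R) ^ (m + 2) := hz
  have hL := hc.hL
  have hR := hc.hR
  have hP : 0 < L + R := by omega
  have hw : wN c m L R p X < L + R := by
    unfold wN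
    exact Nat.mod_lt _ hP
  have hs : R * (wN c m L R p X / R) ≤ wN c m L R p X := Nat.mul_div_le _ _
  have hsG : wN c m L R p X / R < (L + R) / R + 1 := by
    have := Nat.div_le_div_right (c := R) hw.le
    omega
  have hX' : addm m L R X (R * (wN c m L R p X / R)) < (L + R) ^ (m + 2) := by
    unfold addm
    refine tab_lt (d := fun i => if i = m then (dig (L + R) X m +
      R * (wN c m L R p X / R)) % (L + R) else dig (L + R) X i) ?_
    intro j _
    by_cases h : j = m
    · simp only [h, if_true]
      exact Nat.mod_lt _ hP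
    · simp only [if_neg h]
      exact dig_lt hP _ _
  have hv : ∀ i < m + 2, vN c m p i ≤ L + R := by
    intro i _
    unfold vN
    by_cases h1 : i < m
    · rw [if_pos h1]
      have := hc.le p hp i h1
      omega
    · rw [if_neg h1]
      by_cases h2 : i = m
      · rw [if_pos h2]
        have := hc.nrm_le p hp
        omega
      · rw [if_neg h2]
        omega
  have hu := ushX_shX c m L R hP p _ hX' hv
  have hwX' := wN_addm c m L R hP p X (R * (wN c m L R p X / R)) hs
  have hlt : wN c m L R p (addm m L R X (R * (wN c m L R p X / R))) < R := by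
    rw [hwX']
    have := Nat.mod_add_div (wN c m L R p X) R
    have h2 := Nat.mod_lt (wN c m L R p X) (show R > 0 by omega)
    omega
  show (if wN c m L R p (ushX c m L R p (shX c m L R p
      (addm m L R X (R * (wN c m L R p X / R))))) < R then
      some (addm m L R (ushX c m L R p (shX c m L R p
        (addm m L R X (R * (wN c m L R p X / R)))))
        (L + R - R * ((((L + R) / R + 1) * S + wN c m L R p X / R) % ((L + R) / R + 1))),
        (((L + R) / R + 1) * S + wN c m L R p X / R) / ((L + R) / R + 1))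
    else none) = some (X, S)
  rw [hu, if_pos hlt, Nat.mul_add_mod, Nat.mod_eq_of_lt hsG,
    addm_addm m L R hP X _ hX (by omega), Nat.mul_add_div (Nat.succ_pos _), Nat.div_eq_of_lt hsG,
    Nat.add_zero]

end Pool.Agent.Helper53.TE
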