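import Pool.Agent.Helper1.TE.Goals3

/-!
# PROJECT TE (MP_8b4d68_lc), packet LCT
-/

namespace Pool.Agent.Helper53.TE

open Pool.Agent.Helper1.TE
open Pool.Agent.Helper65.LinSpace (dig tab nrec ifz eq01 le01 lt01 capPow Ctx LS)

theorem gLCT : GoalLCT := by
  intro α _ W q m d hW hq hm hd
  unfold ctab
  refine LS.nrec (G := fun _ => 0) (N := m) (C := W)
    (K := fun a i r => min (r + d a i * capPow (q a) i (W a)) (W a)) (by fun_prop) hm hW ?_ ?_
  · have h1 : LS (fun p : α × ℕ × ℕ => d p.1 p.2.1) :=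
      LS.comp (g := fun p : α × ℕ => d p.1 p.2) (f := fun p : α × ℕ × ℕ => (p.1, p.2.1)) hd
        (by fun_prop)
    fun_prop
  · intro a i _
    cases i with
    | zero => exact Nat.zero_le _
    | succ i => exact min_le_right _ _

end Pool.Agent.Helper53.TE
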